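import Mathlib
import Pool.Agent.Helper64.Final

set_option autoImplicit false

namespace Pool.Agent.Results.MP_2e39f7_co.CritDimensions

open Filter Topology

/-- The Cayley sum graph `Γ_A`: distinct `x`, `y` are adjacent iff `x + y ∈ A`. -/
def sumGraph {G : Type*} [AddCommGroup G] (A : Set G) : SimpleGraph G where
  Adj x y := x ≠ y ∧ x + y ∈ A
  symm := ⟨fun x y h => ⟨h.1.symm, by rw [add_comm]; exact h.2⟩⟩
  loopless := ⟨fun _ h => h.1 rfl⟩

/-- The product `χ(Γ_A) ω(Γ_A)`, as a real number. -/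
noncomputable def chiOmega {G : Type*} [AddCommGroup G] (A : Set G) : ℝ :=
  ((sumGraph A).chromaticNumber.toNat : ℝ) * ((sumGraph A).cliqueNum : ℝ)

/-- The probability that a uniformly random subset `A` of the finite set `G` satisfies `P`. -/
noncomputable def prob (G : Type*) (P : Set G → Prop) : ℝ :=
  ({A : Set G | P A}.ncard : ℝ) / 2 ^ Nat.card G

/-- The dimensions `n_j = 2 ^ j + 2 ^ (2 ^ j - j)`. -/
def dim (j : ℕ) : ℕ := 2 ^ j + 2 ^ (2 ^ j - j)

section aux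

open Pool.Agent.Helper64.Cayley

/-- The parameters of the assembly, for every `j ≥ 31`. -/
lemma params (J : ℕ) (hJ : 31 ≤ J) : ∃ k w q n s p : ℕ, k = 2 ^ J ∧ w = 2 ^ (2 ^ J - J) ∧
    q = 2 ^ k ∧ k * w = q ∧ n = k + w ∧
    2 ^ 31 ≤ k ∧ 2 ^ 18 ≤ s ∧ 64 * (s + 2) ≤ k ∧ 2 ^ 24 * 2 ^ s * (k * k) ≤ q ∧ 6 * k ≤ w ∧
    q = 128 * (p + 1) ∧ (n + 1) * (q + 1) * 2 ^ 17 ≤ 2 ^ n := by
  obtain ⟨s, hs⟩ : ∃ s : ℕ, s = 2 ^ 18 := ⟨_, rfl⟩
  obtain ⟨k, hk⟩ : ∃ k : ℕ, k = 2 ^ J := ⟨_, rfl⟩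
  -- lower bound for k
  obtain ⟨N₀, hJ'⟩ := Nat.exists_eq_add_of_le hJ
  have hkJ : 2 ^ 31 * (N₀ + 1) ≤ k := by
    rw [hk, hJ', pow_add]
    apply Nat.mul_le_mul_left
    exact Nat.lt_two_pow_self
  have hJk : J ≤ k := by
    rw [hk]; exact (Nat.lt_two_pow_self).le
  obtain ⟨w, hw⟩ : ∃ w : ℕ, w = 2 ^ (k - J) := ⟨_, rfl⟩
  have hkw : k * w = 2 ^ k := by
    calc k * w = 2 ^ J * 2 ^ (k - J) := by rw [← hk, ← hw]
      _ = 2 ^ k := by rw [← pow_add]; congr 1; omega
  have h6 : 64 * k ≤ w := by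
    calc 64 * k = 2 ^ (6 + J) := by rw [hk, pow_add]; norm_num
      _ ≤ w := by
        rw [hw]
        apply Nat.pow_le_pow_right (by norm_num)
        omega
  refine ⟨k, w, 2 ^ k, k + w, s, 2 ^ (k - 7) - 1, hk, by rw [hw, ← hk], rfl, hkw, rfl, by omega,
    by omega, by omega, ?_, by omega, ?_, ?_⟩
  · calc 2 ^ 24 * 2 ^ s * (k * k) = 2 ^ 24 * 2 ^ s * (2 ^ J * 2 ^ J) := by
          rw [← hk]
      _ = 2 ^ (24 + s + (J + J)) := by rw [pow_add, pow_add, pow_add]
      _ ≤ 2 ^ k := by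
        apply Nat.pow_le_pow_right (by norm_num)
        omega
  · have h1 : 0 < 2 ^ (k - 7) := by positivity
    have h2 : 2 ^ k = 2 ^ (7 + (k - 7)) := by congr 1; omega
    rw [h2, pow_add]
    have h3 : 2 ^ (k - 7) - 1 + 1 = 2 ^ (k - 7) := by omega
    rw [h3]; norm_num
  · have hw2 : w ≤ 2 ^ k := by
      rw [hw]; exact Nat.pow_le_pow_right (by norm_num) (by omega)
    have hk2 : k ≤ 2 ^ k := (Nat.lt_two_pow_self).le
    have h1 : k + w + 1 ≤ 2 ^ (k + 2) := by
      have : 2 ^ (k + 2) = 4 * 2 ^ k := by rw [pow_add]; ring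
      have h0 : 0 < 2 ^ k := by positivity
      omega
    have h2 : 2 ^ k + 1 ≤ 2 ^ (k + 1) := by
      have : 2 ^ (k + 1) = 2 * 2 ^ k := by rw [pow_succ]; ring
      have h0 : 0 < 2 ^ k := by positivity
      omega
    calc (k + w + 1) * (2 ^ k + 1) * 2 ^ 17 ≤ 2 ^ (k + 2) * 2 ^ (k + 1) * 2 ^ 17 := by gcongr
      _ = 2 ^ (k + 2 + (k + 1) + 17) := by rw [← pow_add, ← pow_add]
      _ ≤ 2 ^ (k + w) := by
        apply Nat.pow_le_pow_right (by norm_num)
        omega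

/-- The good sets of the model `(Fin k → ZMod 2) × (Fin w → ZMod 2)`. -/
lemma core (k w q n s p : ℕ) (hq : q = 2 ^ k) (hkw : k * w = q) (hn : n = k + w)
    (hk31 : 2 ^ 31 ≤ k) (hs : 2 ^ 18 ≤ s)
    (hsk : 64 * (s + 2) ≤ k) (hbig : 2 ^ 24 * 2 ^ s * (k * k) ≤ q) (hw : 6 * k ≤ w)
    (hp : q = 128 * (p + 1)) (hlast : (n + 1) * (q + 1) * 2 ^ 17 ≤ 2 ^ n) :
    ∃ S : Finset (Finset ((Fin k → ZMod 2) × (Fin w → ZMod 2))),
      2 ^ (2 ^ n) ≤ 2 ^ 18 * S.card ∧
      ∀ A ∈ S, (128 / 127 : ℝ) * 2 ^ n ≤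
        ((cayleySum A).chromaticNumber.toNat : ℝ) * ((cayleySum A).cliqueNum : ℝ) := by
  have hE : Fintype.card (Fin k → ZMod 2) = 2 ^ k := by
    rw [Fintype.card_fun, ZMod.card, Fintype.card_fin]
  have hF : Fintype.card (Fin w → ZMod 2) = 2 ^ w := by
    rw [Fintype.card_fun, ZMod.card, Fintype.card_fin]
  have hG : Fintype.card ((Fin k → ZMod 2) × (Fin w → ZMod 2)) = 2 ^ n := by
    rw [Fintype.card_prod, hE, hF, ← pow_add, hn]
  have hgood := card_good (E := Fin k → ZMod 2) (F := Fin w → ZMod 2) k w q n s (127 * p + 127)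
    hE hF hq hkw hn hk31 hs hsk hbig hw (by omega) (by omega) hlast
  refine ⟨graphEvent (Fin k → ZMod 2) (Fin w → ZMod 2) ∩
    noIndep (G := (Fin k → ZMod 2) × (Fin w → ZMod 2)) (127 * p + 127), ?_, ?_⟩
  · rwa [hG] at hgood
  · intro A hA
    rw [Finset.mem_inter] at hA
    have h1 := cliqueNum_ge A hA.1
    rw [hE] at h1
    have h2 := card_le_of_noIndep (127 * p + 126) A hA.2
    rw [hG] at h2
    set χ := (cayleySum A).chromaticNumber.toNat with hχ
    set ω := (cayleySum A).cliqueNum with hω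
    have h1' : ((128 * (p + 1) : ℕ) : ℝ) ≤ (ω : ℝ) := by
      rw [← hp, hq]; exact_mod_cast h1
    have h2' : ((2 ^ n : ℕ) : ℝ) ≤ (χ : ℝ) * ((127 * p + 126 : ℕ) : ℝ) := by
      exact_mod_cast h2
    have hχ0 : (0 : ℝ) ≤ (χ : ℝ) := Nat.cast_nonneg _
    have e1 : (χ : ℝ) * ((128 * (p + 1) : ℕ) : ℝ) ≤ (χ : ℝ) * (ω : ℝ) :=
      mul_le_mul_of_nonneg_left h1' hχ0
    push_cast at e1 h2'
    nlinarith

lemma cliqueNum_le_of_embedding {X Y : Type*} [Finite X] [Finite Y] {P : SimpleGraph X}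
    {Q : SimpleGraph Y} (g : P ↪g Q) : P.cliqueNum ≤ Q.cliqueNum := by
  obtain ⟨s, hs⟩ := P.exists_isNClique_cliqueNum
  have h1 : Q.IsClique (s.map g.toEmbedding : Finset Y) := by
    intro a ha b hb hab
    rw [Finset.mem_coe, Finset.mem_map] at ha hb
    obtain ⟨x, hx, rfl⟩ := ha
    obtain ⟨y, hy, rfl⟩ := hb
    exact g.map_rel_iff.2 (hs.1 hx hy (fun h => hab (by rw [h])))
  have h2 := h1.card_le_cliqueNum
  rwa [Finset.card_map, hs.2] at h2

/-- Transport of the graph along a group isomorphism. -/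
lemma chiOmega_image {G H : Type*} [AddCommGroup G] [AddCommGroup H] [Finite G] [Finite H]
    (e : G ≃+ H) (A : Finset G) :
    chiOmega (e '' (A : Set G)) =
      ((cayleySum A).chromaticNumber.toNat : ℝ) * ((cayleySum A).cliqueNum : ℝ) := by
  have hiff : ∀ x y : G, (sumGraph (e '' (A : Set G))).Adj (e x) (e y) ↔
      (cayleySum A).Adj x y := by
    intro x y
    rw [SimpleGraph.fromRel_adj]
    show (e x ≠ e y ∧ e x + e y ∈ e '' (A : Set G)) ↔ _
    rw [← map_add, e.injective.ne_iff, e.injective.mem_set_image, Finset.mem_coe, add_comm y x,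
      or_self]
  let f : cayleySum A ≃g sumGraph (e '' (A : Set G)) :=
    { toEquiv := e.toEquiv, map_rel_iff' := fun {x y} => hiff x y }
  have hχ : (sumGraph (e '' (A : Set G))).chromaticNumber = (cayleySum A).chromaticNumber :=
    le_antisymm (SimpleGraph.chromaticNumber_mono_of_hom f.symm.toHom)
      (SimpleGraph.chromaticNumber_mono_of_hom f.toHom)
  have hω : (sumGraph (e '' (A : Set G))).cliqueNum = (cayleySum A).cliqueNum :=
    le_antisymm (cliqueNum_le_of_embedding f.symm.toEmbedding)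
      (cliqueNum_le_of_embedding f.toEmbedding)
  unfold chiOmega
  rw [hχ, hω]

/-- The group isomorphism with the model. -/
lemma exists_iso {G : Type*} [AddCommGroup G] (h2 : ∀ x : G, x + x = 0) (k w : ℕ)
    (hG : Nat.card G = 2 ^ (k + w)) :
    Nonempty (((Fin k → ZMod 2) × (Fin w → ZMod 2)) ≃+ G) := by
  let _ : Module (ZMod 2) G := AddCommGroup.zmodModule (n := 2) (fun x => by
    rw [two_nsmul]; exact h2 x)
  have hfin : Finite G := Nat.finite_of_card_ne_zero (by rw [hG]; positivity)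
  have hfr : Module.finrank (ZMod 2) G = k + w := by
    have h := Module.natCard_eq_pow_finrank (K := ZMod 2) (V := G)
    rw [hG, Nat.card_zmod] at h
    exact (Nat.pow_right_injective (le_refl 2) h).symm
  have hfr2 : Module.finrank (ZMod 2) ((Fin k → ZMod 2) × (Fin w → ZMod 2)) = k + w := by
    simp
  have e := LinearEquiv.ofFinrankEq ((Fin k → ZMod 2) × (Fin w → ZMod 2)) G
    (hfr2.trans hfr.symm)
  exact ⟨e.toAddEquiv⟩

lemma main_prob (j : ℕ) (hj : 31 ≤ j) (G : Type*) [AddCommGroup G] (h2 : ∀ x : G, x + x = 0)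
    (hG : Nat.card G = 2 ^ dim j) :
    1 / 2 ^ 18 ≤ prob G (fun A => 128 / 127 * (Nat.card G : ℝ) ≤ chiOmega A) := by
  obtain ⟨k, w, q, n, s, p, hk, hwj, hq, hkw, hn, hk31, hs, hsk, hbig, hw, hp, hlast⟩ :=
    params j hj
  obtain ⟨S, hS1, hS2⟩ := core k w q n s p hq hkw hn hk31 hs hsk hbig hw hp hlast
  have hdim : dim j = k + w := by unfold dim; rw [← hk, hwj, ← hk]
  rw [hdim] at hG
  obtain ⟨e⟩ := exists_iso h2 k w hG
  have hfin : Finite G := Nat.finite_of_card_ne_zero (by rw [hG]; positivity)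
  have hsub : ((fun A : Finset ((Fin k → ZMod 2) × (Fin w → ZMod 2)) => e '' (A : Set _)) ''
      (S : Set (Finset ((Fin k → ZMod 2) × (Fin w → ZMod 2))))) ⊆
      {A : Set G | 128 / 127 * (Nat.card G : ℝ) ≤ chiOmega A} := by
    rintro _ ⟨A, hA, rfl⟩
    change 128 / 127 * (Nat.card G : ℝ) ≤ chiOmega (e '' (A : Set _))
    rw [chiOmega_image, hG, ← hn]
    have := hS2 A hA
    push_cast
    exact this
  have hinj : Function.Injective
      (fun A : Finset ((Fin k → ZMod 2) × (Fin w → ZMod 2)) => e '' (A : Set _)) :=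
    fun A B h => Finset.coe_injective (e.injective.image_injective h)
  have h1 := Set.ncard_le_ncard hsub (Set.toFinite _)
  rw [Set.ncard_image_of_injective _ hinj, Set.ncard_coe_finset] at h1
  unfold prob
  rw [hG, ← hn, le_div_iff₀ (by positivity)]
  have h3 : ((2 : ℝ) ^ (2 ^ n)) ≤ 2 ^ 18 * (S.card : ℝ) := by exact_mod_cast hS1
  have h4 : (S.card : ℝ) ≤ ({A : Set G | 128 / 127 * (Nat.card G : ℝ) ≤ chiOmega A}.ncard : ℝ) := by
    exact_mod_cast h1
  rw [hG, ← hn] at h4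
  linarith

lemma prob_add_le (G : Type*) [Finite G] (P Q : Set G → Prop) (h : ∀ A, P A → ¬ Q A) :
    prob G P + prob G Q ≤ 1 := by
  unfold prob
  rw [← add_div, div_le_one (by positivity)]
  have hd : Disjoint {A : Set G | P A} {A : Set G | Q A} := by
    rw [Set.disjoint_left]
    exact fun A hA hA' => h A hA hA'
  have h1 := Set.ncard_union_eq hd (Set.toFinite _) (Set.toFinite _)
  have h2 := Set.ncard_le_ncard (Set.subset_univ ({A : Set G | P A} ∪ {A : Set G | Q A}))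
    (Set.toFinite _)
  rw [h1, Set.ncard_univ] at h2
  have h3 : Nat.card (Set G) = 2 ^ Nat.card G := by
    have := Fintype.ofFinite G
    rw [Nat.card_eq_fintype_card, Nat.card_eq_fintype_card, Fintype.card_set]
  rw [h3] at h2
  exact_mod_cast h2

lemma card_fun (n : ℕ) : Nat.card (Fin n → ZMod 2) = 2 ^ n := by
  rw [Nat.card_eq_fintype_card, Fintype.card_fun, ZMod.card, Fintype.card_fin]

lemma le_dim (j : ℕ) : j ≤ dim j := by
  unfold dim
  exact (Nat.lt_two_pow_self (n := j)).le.trans (Nat.le_add_right _ _)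

end aux

/-- At the dimensions `n_j`, the product `χ(Γ_A) ω(Γ_A)` is at least `(128/127) N` with
probability at least `2 ^ (-18)`, so it is not `(1 + o(1)) N` almost surely. -/
theorem result :
    (∀ j : ℕ, 31 ≤ j → ∀ (G : Type*) [AddCommGroup G], (∀ x : G, x + x = 0) →
      Nat.card G = 2 ^ dim j →
      1 / 2 ^ 18 ≤ prob G (fun A => 128 / 127 * (Nat.card G : ℝ) ≤ chiOmega A)) ∧
    (Tendsto (fun j => Nat.card (Fin (dim j) → ZMod 2)) atTop atTop ∧
      ∀ ε : ℝ, ε < 1 / 127 →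
        ¬ Tendsto (fun j => prob (Fin (dim j) → ZMod 2) (fun A =>
            (1 - ε) * (Nat.card (Fin (dim j) → ZMod 2) : ℝ) ≤ chiOmega A ∧
            chiOmega A ≤ (1 + ε) * (Nat.card (Fin (dim j) → ZMod 2) : ℝ))) atTop (𝓝 1)) := by
  refine ⟨fun j hj G _ h2 hG => main_prob j hj G h2 hG, ?_, ?_⟩
  · apply tendsto_atTop_mono (f := fun j : ℕ => j) _ tendsto_id
    intro j
    rw [card_fun]
    exact (le_dim j).trans (Nat.lt_two_pow_self).le
  · intro ε hε ht
    have hev := ht.eventually (lt_mem_nhds (show (1 - 1 / 2 ^ 18 : ℝ) < 1 by norm_num))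
    obtain ⟨j, hj1, hj2⟩ := (hev.and (eventually_ge_atTop 31)).exists
    have h1 := main_prob j hj2 (Fin (dim j) → ZMod 2)
      (fun x => by funext i; exact CharTwo.add_self_eq_zero _) (card_fun _)
    have h2 := prob_add_le (Fin (dim j) → ZMod 2)
      (fun A => 128 / 127 * (Nat.card (Fin (dim j) → ZMod 2) : ℝ) ≤ chiOmega A)
      (fun A => (1 - ε) * (Nat.card (Fin (dim j) → ZMod 2) : ℝ) ≤ chiOmega A ∧
            chiOmega A ≤ (1 + ε) * (Nat.card (Fin (dim j) → ZMod 2) : ℝ)) (by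
        rintro A hA ⟨-, hA2⟩
        have hpos : (0 : ℝ) < (Nat.card (Fin (dim j) → ZMod 2) : ℝ) := by
          rw [card_fun]; positivity
        nlinarith)
    linarith

end Pool.Agent.Results.MP_2e39f7_co.CritDimensions
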